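import Pool.Agent.Helper55.AR.Defs

/-! Existence of the chain. -/

set_option autoImplicit false

open Cardinal Ordinal Set Filter Helper23.Pcf Helper55.CP

universe u

namespace Helper55.AR

theorem ach_step (T : Sys.{u}) (e e' : Ordinal.{u} → Ordinal.{u} → Ordinal.{u})
    (M : Set Ordinal.{u}) (hM : #M ≤ Cardinal.lift.{u+1} T.μ) :
    ∃ M' : Set Ordinal.{u}, #M' ≤ Cardinal.lift.{u+1} T.μ ∧
      (∀ x ∈ M, ∀ y ∈ M, e x y ∈ M' ∧ e' x y ∈ M') ∧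
      (∀ ξ ∈ M, ∀ q i, T.f q ξ i ∈ M') ∧
      (∀ q, chi M (T.lam q).ord ∈ M') ∧
      (∀ q, ∃ ξ ∈ M', ξ < (T.lam q).ord ∧
        ∀ ζ, ξ ≤ ζ → ζ < (T.lam q).ord → ∀ D, HasCof D (fun i => (T.c i).ord) (T.lam q) →
          dlt D (fun i => chi M (T.c i).ord) (T.f q ζ)) := by
  have hνμ : T.ν ≤ T.μ := (Order.le_succ _).trans ((Order.le_succ _).trans T.hνμ)
  have hμ : ℵ₀ ≤ T.μ := T.hν0.le.trans hνμ
  have hμ' : ℵ₀ ≤ Cardinal.lift.{u+1} T.μ := Cardinal.aleph0_le_lift.2 hμ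
  have hι : #T.ι ≤ T.μ := T.hι.le.trans hνμ
  have hdom : ∀ q, ∃ ξ : Ordinal.{u}, ξ < (T.lam q).ord ∧
      ∀ ζ, ξ ≤ ζ → ζ < (T.lam q).ord → ∀ D, HasCof D (fun i => (T.c i).ord) (T.lam q) →
        dlt D (fun i => chi M (T.c i).ord) (T.f q ζ) := by
    intro q
    obtain ⟨ξ, h1, h2⟩ := T.f_dom q (fun i => chi M (T.c i).ord) fun i =>
      Helper55.CP.chi_lt (T.reg i) (hM.trans_lt (Cardinal.lift_lt.2 (T.hc i)))
    exact ⟨ξ, h1, h2⟩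
  choose ξ hξ1 hξ2 using hdom
  have hsing : ∀ x : Ordinal.{u}, #({x} : Set Ordinal.{u}) ≤ Cardinal.lift.{u+1} T.μ := by
    intro x
    rw [Cardinal.mk_singleton]
    exact Cardinal.one_le_aleph0.trans hμ'
  have himg : ∀ g : Ordinal.{u} → Ordinal.{u}, #(g '' M) ≤ Cardinal.lift.{u+1} T.μ :=
    fun g => Cardinal.mk_image_le.trans hM
  have hun : ∀ S S' : Set Ordinal.{u}, #S ≤ Cardinal.lift.{u+1} T.μ →
      #S' ≤ Cardinal.lift.{u+1} T.μ → #(S ∪ S' : Set Ordinal.{u}) ≤ Cardinal.lift.{u+1} T.μ :=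
    fun S S' h h' => (Cardinal.mk_union_le _ _).trans (Cardinal.add_le_of_le hμ' h h')
  refine ⟨(⋃ x : M, (fun y => e x.1 y) '' M) ∪ ((⋃ x : M, (fun y => e' x.1 y) '' M) ∪
    ((⋃ q : T.Q, ⋃ i : T.ι, (fun z => T.f q z i) '' M) ∪
    ((⋃ q : T.Q, {chi M (T.lam q).ord}) ∪ ⋃ q : T.Q, {ξ q}))), ?_, ?_, ?_, ?_, ?_⟩
  · refine hun _ _ (mk_iUnion_small hμ _ hM fun x => himg _) ?_
    refine hun _ _ (mk_iUnion_small hμ _ hM fun x => himg _) ?_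
    refine hun _ _ (mk_iUnion_small' hμ _ T.hQ fun q =>
      mk_iUnion_small' hμ _ hι fun i => himg _) ?_
    exact hun _ _ (mk_iUnion_small' hμ _ T.hQ fun q => hsing _)
      (mk_iUnion_small' hμ _ T.hQ fun q => hsing _)
  · intro x hx y hy
    exact ⟨Or.inl (mem_iUnion.2 ⟨⟨x, hx⟩, ⟨y, hy, rfl⟩⟩),
      Or.inr (Or.inl (mem_iUnion.2 ⟨⟨x, hx⟩, ⟨y, hy, rfl⟩⟩))⟩
  · intro z hz q i
    exact Or.inr (Or.inr (Or.inl (mem_iUnion.2 ⟨q, mem_iUnion.2 ⟨i, ⟨z, hz, rfl⟩⟩⟩)))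
  · intro q
    exact Or.inr (Or.inr (Or.inr (Or.inl (mem_iUnion.2 ⟨q, rfl⟩))))
  · intro q
    exact ⟨ξ q, Or.inr (Or.inr (Or.inr (Or.inr (mem_iUnion.2 ⟨q, rfl⟩)))), hξ1 q, hξ2 q⟩

/-- A: the chain -/
theorem ach_exists (T : Sys.{u}) (e e' : Ordinal.{u} → Ordinal.{u} → Ordinal.{u})
    {X : Set Ordinal.{u}} (hX : #X ≤ Cardinal.lift.{u+1} T.μ) :
    ∃ N, X ⊆ N 0 ∧ ACh T e e' N := by
  classical
  have hνμ : T.ν ≤ T.μ := (Order.le_succ _).trans ((Order.le_succ _).trans T.hνμ)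
  have hμ : ℵ₀ ≤ T.μ := T.hν0.le.trans hνμ
  have h0 : ℵ₀ ≤ Cardinal.lift.{u+1} T.μ := Cardinal.aleph0_le_lift.2 hμ
  have hch : ∀ M : Set Ordinal.{u}, ∃ M' : Set Ordinal.{u},
      #M ≤ Cardinal.lift.{u+1} T.μ → #M' ≤ Cardinal.lift.{u+1} T.μ ∧
      (∀ x ∈ M, ∀ y ∈ M, e x y ∈ M' ∧ e' x y ∈ M') ∧
      (∀ ξ ∈ M, ∀ q i, T.f q ξ i ∈ M') ∧
      (∀ q, Helper55.CP.chi M (T.lam q).ord ∈ M') ∧
      (∀ q, ∃ ξ ∈ M', ξ < (T.lam q).ord ∧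
        ∀ ζ, ξ ≤ ζ → ζ < (T.lam q).ord → ∀ D, HasCof D (fun i => (T.c i).ord) (T.lam q) →
          dlt D (fun i => Helper55.CP.chi M (T.c i).ord) (T.f q ζ)) := by
    intro M
    by_cases hM : #M ≤ Cardinal.lift.{u+1} T.μ
    · obtain ⟨M', hM'⟩ := ach_step T e e' M hM
      exact ⟨M', fun _ => hM'⟩
    · exact ⟨∅, fun h => absurd h hM⟩
  choose st hst using hch
  obtain ⟨B, hBdef⟩ : ∃ B : Set Ordinal.{u}, B = Iio T.μ.ord ∪ X := ⟨_, rfl⟩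
  have hB : #B ≤ Cardinal.lift.{u+1} T.μ := by
    rw [hBdef]
    refine (Cardinal.mk_union_le _ _).trans (Cardinal.add_le_of_le h0 ?_ hX)
    rw [Cardinal.mk_Iio_ordinal, Cardinal.card_ord]
  have hcard : ∀ ε < (Order.succ T.μ).ord, #(iterSt st B ε) ≤ Cardinal.lift.{u+1} T.μ := by
    intro ε
    induction ε using WellFoundedLT.induction with
    | ind ε ih =>
      intro hε
      rw [iterSt_eq]
      refine (Cardinal.mk_union_le _ _).trans (Cardinal.add_le_of_le h0 hB ?_)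
      refine mk_iUnion_small hμ _ ?_ fun η => ?_
      · rw [Cardinal.mk_Iio_ordinal]
        refine Cardinal.lift_le.2 ?_
        exact Order.lt_succ_iff.1 (Cardinal.lt_ord.1 hε)
      · exact (hst _ (ih η.1 η.2 (lt_trans η.2 hε))).1
  have hsub : ∀ η ε, η < ε → st (iterSt st B η) ⊆ iterSt st B ε := fun η ε h z hz =>
    mem_iterSt.2 (Or.inr ⟨η, h, hz⟩)
  have hBsub : ∀ ε, B ⊆ iterSt st B ε := fun ε z hz => mem_iterSt.2 (Or.inl hz)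
  refine ⟨iterSt st B, fun z hz => hBsub 0 (by rw [hBdef]; exact Or.inr hz),
    ⟨fun ε z hz => hBsub ε (by rw [hBdef]; exact Or.inl hz), fun η ε h z hz => ?_,
    fun ε hε z hz => ?_, hcard, fun η ε h hε x hx y hy => ?_, fun η ε h hε ξ hξ q i => ?_,
    fun η ε h hε q => ?_, fun η ε h hε q => ?_⟩⟩
  · rcases mem_iterSt.1 hz with h1 | ⟨ζ, h1, h2⟩
    · exact mem_iterSt.2 (Or.inl h1)
    · exact mem_iterSt.2 (Or.inr ⟨ζ, h1.trans_le h, h2⟩)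
  · rcases mem_iterSt.1 hz with h1 | ⟨ζ, h1, h2⟩
    · exact ⟨0, hε.bot_lt, mem_iterSt.2 (Or.inl h1)⟩
    · exact ⟨Order.succ ζ, hε.succ_lt h1, hsub _ _ (Order.lt_succ ζ) h2⟩
  · have h1 := (hst _ (hcard η (h.trans hε))).2.1 x hx y hy
    exact ⟨hsub _ _ h h1.1, hsub _ _ h h1.2⟩
  · exact hsub _ _ h ((hst _ (hcard η (h.trans hε))).2.2.1 ξ hξ q i)
  · exact hsub _ _ h ((hst _ (hcard η (h.trans hε))).2.2.2.1 q)
  · obtain ⟨ξ, h1, h2, h3⟩ := (hst _ (hcard η (h.trans hε))).2.2.2.2 q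
    exact ⟨ξ, hsub _ _ h h1, h2, h3⟩

end Helper55.AR
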